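import Pool.Agent.W491.FS.Stm

/-! # Froelicher project, part GB: adding blocks to a core -/

set_option autoImplicit false

open scoped Manifold ContDiff Topology

noncomputable section

namespace Pool.Agent.W168.FS.GB

open Pool.Agent.W491.FS

variable {m : ℕ} {s : Str (Fin (m + 1))}

/-- restriction to the core, complex linear -/
def resC (m k : ℕ) : (Idx m k → ℂ) →L[ℂ] (Fin (m + 1) → ℂ) :=
  ContinuousLinearMap.pi fun i => ContinuousLinearMap.proj (Sum.inl i)

@[simp] lemma resC_apply (k : ℕ) (z : Idx m k → ℂ) (i : Fin (m + 1)) :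
    resC m k z i = z (Sum.inl i) := rfl

/-- restriction to the core, real linear -/
def resR (m k : ℕ) : (Idx m k → ℂ) →L[ℝ] (Fin (m + 1) → ℂ) :=
  ContinuousLinearMap.pi fun i => ContinuousLinearMap.proj (Sum.inl i)

@[simp] lemma resR_apply (k : ℕ) (z : Idx m k → ℂ) (i : Fin (m + 1)) :
    resR m k z i = z (Sum.inl i) := rfl

lemma resC_eq (k : ℕ) (z : Idx m k → ℂ) : resC m k z = resR m k z := rfl

/-- the parameter -/
def ll {k : ℕ} (j : Fin k) : ℂ := ((j : ℕ) : ℂ) + 2

/-- rank -/
def rkB (F : Fam (Fin (m + 1)) s) (k : ℕ) : Idx m k → ℕ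
  | Sum.inl i => F.rk i
  | Sum.inr (_, false) => 0
  | Sum.inr (_, true) => 1

/-- scale -/
def scB (F : Fam (Fin (m + 1)) s) (k : ℕ) : Idx m k → ℕ
  | Sum.inl i => F.sc i
  | Sum.inr _ => 1

/-- the correction term of the group law -/
def hB (F : Fam (Fin (m + 1)) s) (k : ℕ) (a z : Idx m k → ℂ) : Idx m k → ℂ
  | Sum.inl i => F.h (resR m k a) (resR m k z) i
  | Sum.inr (_, false) => 0
  | Sum.inr (j, true) =>
    -(ll j * (a (Sum.inl 0) + starRingEnd ℂ (a (Sum.inl 0)))) * z (Sum.inr (j, false)) +
      (ll j ^ 2 + 1) * starRingEnd ℂ (a (Sum.inr (j, false))) * z (Sum.inl 0)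

lemma hB_inl (F : Fam (Fin (m + 1)) s) (k : ℕ) (a z : Idx m k → ℂ) (i : Fin (m + 1)) :
    hB F k a z (Sum.inl i) = F.h (resR m k a) (resR m k z) i := rfl

lemma hB_ff (F : Fam (Fin (m + 1)) s) (k : ℕ) (a z : Idx m k → ℂ) (j : Fin k) :
    hB F k a z (Sum.inr (j, false)) = 0 := rfl

lemma hB_tt (F : Fam (Fin (m + 1)) s) (k : ℕ) (a z : Idx m k → ℂ) (j : Fin k) :
    hB F k a z (Sum.inr (j, true)) =
      -(ll j * (a (Sum.inl 0) + starRingEnd ℂ (a (Sum.inl 0)))) * z (Sum.inr (j, false)) +
      (ll j ^ 2 + 1) * starRingEnd ℂ (a (Sum.inr (j, false))) * z (Sum.inl 0) := rfl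

lemma res_mul (F : Fam (Fin (m + 1)) s) (k : ℕ) (a z : Idx m k → ℂ) :
    resR m k (a + z + hB F k a z) =
      resR m k a + resR m k z + F.h (resR m k a) (resR m k z) := by
  funext i
  simp [hB_inl]

/-- the law with blocks -/
def lawB (F : Fam (Fin (m + 1)) s) (hF : IsCore F) (k : ℕ) : Law (Idx m k) where
  rk := rkB F k
  sc := scB F k
  sc_pos := by
    rintro (i | ⟨j, b⟩)
    · exact F.sc_pos i
    · exact Nat.one_pos
  h := hB F k
  dep := by
    rintro (i | ⟨j, b⟩) a a' z z' h1 h2
    · rw [hB_inl, hB_inl]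
      exact F.dep i _ _ _ _ (fun q hq => h1 (Sum.inl q) hq) (fun q hq => h2 (Sum.inl q) hq)
    · cases b with
      | false => rfl
      | true =>
        have e0 : rkB F k (Sum.inl 0) < rkB F k (Sum.inr (j, true)) := by
          show F.rk 0 < 1
          rw [hF.1]; exact Nat.one_pos
        have e1 : rkB F k (Sum.inr (j, false)) < rkB F k (Sum.inr (j, true)) := by
          show 0 < 1
          exact Nat.one_pos
        rw [hB_tt, hB_tt, h1 _ e0, h2 _ e0, h1 _ e1, h2 _ e1]
  zero_left := by
    intro z
    funext i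
    rcases i with i | ⟨j, b⟩
    · rw [hB_inl, map_zero, F.zero_left]; rfl
    · cases b with
      | false => rfl
      | true => rw [hB_tt]; simp
  assoc := by
    intro a b z
    funext i
    rcases i with i | ⟨j, b'⟩
    · have h := congrFun (F.assoc (resR m k a) (resR m k b) (resR m k z)) i
      simp only [Pi.add_apply, hB_inl, res_mul, resR_apply] at h ⊢
      exact h
    · cases b' with
      | false =>
        simp only [Pi.add_apply, hB_ff]
        ring
      | true =>
        have e1 : hB F k b z (Sum.inl 0) = 0 := hF.2.1 _ _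
        have e2 : hB F k a b (Sum.inl 0) = 0 := hF.2.1 _ _
        simp only [Pi.add_apply, hB_tt, hB_ff, e1, e2, map_add, add_zero]
        ring
  int := by
    intro a b ha hb i
    rcases i with i | ⟨j, b'⟩
    · exact F.int (resR m k a) (resR m k b) (fun i => ha (Sum.inl i)) (fun i => hb (Sum.inl i)) i
    · cases b' with
      | false => exact ⟨0, 0, by simp [hB_ff]⟩
      | true =>
        obtain ⟨x, y, hx⟩ := ha (Sum.inl 0)
        obtain ⟨x', y', hx'⟩ := hb (Sum.inl 0)
        obtain ⟨u, v, hu⟩ := ha (Sum.inr (j, false))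
        obtain ⟨u', v', hu'⟩ := hb (Sum.inr (j, false))
        have hI : (Complex.I : ℂ) * Complex.I = -1 := Complex.I_mul_I
        have s0 : scB F k (Sum.inl 0) = F.sc 0 := rfl
        have s1 : scB F k (Sum.inr (j, false)) = 1 := rfl
        have s2 : scB F k (Sum.inr (j, true)) = 1 := rfl
        rw [s0] at hx hx'
        rw [s1] at hu hu'
        rw [hB_tt, hx, hx', hu, hu', s2]
        refine ⟨-(((j : ℕ) + 2 : ℤ) * (2 * (F.sc 0 : ℤ) * x)) * u' +
            ((((j : ℕ) + 2 : ℤ)) ^ 2 + 1) * (F.sc 0 : ℤ) * (u * x' + v * y'),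
          -(((j : ℕ) + 2 : ℤ) * (2 * (F.sc 0 : ℤ) * x)) * v' +
            ((((j : ℕ) + 2 : ℤ)) ^ 2 + 1) * (F.sc 0 : ℤ) * (u * y' - v * x'), ?_⟩
        simp only [map_mul, map_add, Complex.conj_I, Complex.conj_natCast, map_intCast,
          ll]
        push_cast
        linear_combination (((j : ℕ) + 2 : ℂ) ^ 2 + 1) * (F.sc 0 : ℂ) * (v : ℂ) * (y' : ℂ) * (-1) * hI
  cont := by
    refine continuous_pi fun i => ?_
    rcases i with i | ⟨j, b'⟩
    · have h1 : Continuous fun q : (Idx m k → ℂ) × (Idx m k → ℂ) =>
          ((resR m k q.1, resR m k q.2) : (Fin (m + 1) → ℂ) × (Fin (m + 1) → ℂ)) :=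
        ((resR m k).continuous.comp continuous_fst).prodMk
          ((resR m k).continuous.comp continuous_snd)
      exact (continuous_apply i).comp (F.cont.comp h1)
    · cases b' with
      | false => exact continuous_const
      | true =>
        show Continuous fun q : (Idx m k → ℂ) × (Idx m k → ℂ) =>
          -(ll j * (q.1 (Sum.inl 0) + starRingEnd ℂ (q.1 (Sum.inl 0)))) *
            q.2 (Sum.inr (j, false)) +
          (ll j ^ 2 + 1) * starRingEnd ℂ (q.1 (Sum.inr (j, false))) * q.2 (Sum.inl 0)
        have h1 : ∀ i : Idx m k, Continuous fun q : (Idx m k → ℂ) × (Idx m k → ℂ) => q.1 i :=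
          fun i => (continuous_apply i).comp continuous_fst
        have h2 : ∀ i : Idx m k, Continuous fun q : (Idx m k → ℂ) × (Idx m k → ℂ) => q.2 i :=
          fun i => (continuous_apply i).comp continuous_snd
        have h3 : ∀ i : Idx m k, Continuous fun q : (Idx m k → ℂ) × (Idx m k → ℂ) =>
            starRingEnd ℂ (q.1 i) := fun i => Complex.continuous_conj.comp (h1 i)
        exact (((continuous_const.mul ((h1 _).add (h3 _))).neg).mul (h2 _)).add
          ((continuous_const.mul (h3 _)).mul (h2 _))
  hol := by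
    intro a
    refine contDiff_pi.2 fun i => ?_
    rcases i with i | ⟨j, b'⟩
    · exact (contDiff_pi.1 (F.hol (resR m k a)) i).comp (resC m k).contDiff
    · cases b' with
      | false => exact contDiff_const
      | true =>
        show ContDiff ℂ ω fun z : Idx m k → ℂ =>
          -(ll j * (a (Sum.inl 0) + starRingEnd ℂ (a (Sum.inl 0)))) *
            z (Sum.inr (j, false)) +
          (ll j ^ 2 + 1) * starRingEnd ℂ (a (Sum.inr (j, false))) * z (Sum.inl 0)
        exact (contDiff_const.mul (contDiff_apply _ _ _)).add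
          (contDiff_const.mul (contDiff_apply _ _ _))

/-- projections, real linear -/
def pj {k : ℕ} (i : Idx m k) : Covi (Idx m k) := ContinuousLinearMap.proj i

@[simp] lemma pj_apply {k : ℕ} (i : Idx m k) (v : Idx m k → ℂ) : pj i v = v i := rfl

/-- the coframe -/
def cofB (F : Fam (Fin (m + 1)) s) (k : ℕ) : Idx m k → (Idx m k → ℂ) → Covi (Idx m k)
  | Sum.inl i => fun y => (F.cof i (resR m k y)).comp (resR m k)
  | Sum.inr (j, false) => fun _ => pj (Sum.inr (j, false))
  | Sum.inr (j, true) => fun y => pj (Sum.inr (j, true)) +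
      (ll j * (y (Sum.inl 0) + starRingEnd ℂ (y (Sum.inl 0)))) • pj (Sum.inr (j, false)) -
      ((ll j ^ 2 + 1) * starRingEnd ℂ (y (Sum.inr (j, false)))) • pj (Sum.inl 0)

lemma cofB_inl (F : Fam (Fin (m + 1)) s) (k : ℕ) (i : Fin (m + 1)) (y v : Idx m k → ℂ) :
    cofB F k (Sum.inl i) y v = F.cof i (resR m k y) (resR m k v) := rfl

lemma cofB_ff (F : Fam (Fin (m + 1)) s) (k : ℕ) (j : Fin k) (y v : Idx m k → ℂ) :
    cofB F k (Sum.inr (j, false)) y v = v (Sum.inr (j, false)) := rfl

lemma cofB_tt (F : Fam (Fin (m + 1)) s) (k : ℕ) (j : Fin k) (y v : Idx m k → ℂ) :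
    cofB F k (Sum.inr (j, true)) y v = v (Sum.inr (j, true)) +
      ll j * (y (Sum.inl 0) + starRingEnd ℂ (y (Sum.inl 0))) * v (Sum.inr (j, false)) -
      (ll j ^ 2 + 1) * starRingEnd ℂ (y (Sum.inr (j, false))) * v (Sum.inl 0) := rfl

/-- conjugation, real linear -/
def cjL : ℂ →L[ℝ] ℂ := Complex.conjCLE.toContinuousLinearMap

/-- scalar multiplication with a fixed covector, real linear -/
def smL {k : ℕ} (q : Covi (Idx m k)) : ℂ →L[ℝ] Covi (Idx m k) :=
  (ContinuousLinearMap.smulRight (1 : ℂ →L[ℝ] ℂ) (1 : ℂ)).smulRight q |> fun _ =>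
    LinearMap.toContinuousLinearMap
      { toFun := fun c => c • q
        map_add' := fun a b => add_smul a b q
        map_smul' := fun r a => by
          simp only [RingHom.id_apply]
          exact smul_assoc r a q }

@[simp] lemma smL_apply {k : ℕ} (q : Covi (Idx m k)) (c : ℂ) : smL q c = c • q := rfl

/-- the linear part of the last kind of covector field -/
def tL {k : ℕ} (j : Fin k) : (Idx m k → ℂ) →L[ℝ] Covi (Idx m k) :=
  (smL (pj (Sum.inr (j, false)))).comp
    ((ll j) • (pj (Sum.inl 0) + cjL.comp (pj (Sum.inl 0)))) -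
  (smL (pj (Sum.inl 0))).comp ((ll j ^ 2 + 1) • (cjL.comp (pj (Sum.inr (j, false)))))

lemma tL_apply {k : ℕ} (j : Fin k) (u v : Idx m k → ℂ) : tL j u v =
    ll j * (u (Sum.inl 0) + starRingEnd ℂ (u (Sum.inl 0))) * v (Sum.inr (j, false)) -
      (ll j ^ 2 + 1) * starRingEnd ℂ (u (Sum.inr (j, false))) * v (Sum.inl 0) := rfl

lemma cofB_tt_eq (F : Fam (Fin (m + 1)) s) (k : ℕ) (j : Fin k) :
    cofB F k (Sum.inr (j, true)) = fun y => pj (Sum.inr (j, true)) + tL j y := by
  funext y
  ext v
  · rw [cofB_tt]
    show _ = (pj (Sum.inr (j, true)) v + tL j y v)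
    rw [tL_apply, pj_apply]
    ring

lemma fderiv_tt (F : Fam (Fin (m + 1)) s) (k : ℕ) (j : Fin k) (y : Idx m k → ℂ) :
    fderiv ℝ (cofB F k (Sum.inr (j, true))) y = tL j := by
  rw [cofB_tt_eq]
  have h : HasFDerivAt (fun y : Idx m k → ℂ => pj (Sum.inr (j, true)) + tL j y) (tL j) y :=
    ((tL j).hasFDerivAt).const_add _
  exact h.fderiv

lemma cof'_map (F : Fam (Fin (m + 1)) s) (k : ℕ) (p : Fin (m + 1) ⊕ Fin (m + 1))
    (y v : Idx m k → ℂ) :
    cof' (cofB F k) (Sum.map Sum.inl Sum.inl p) y v =
      cof' F.cof p (resR m k y) (resR m k v) := by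
  rcases p with p | p <;> rfl

/-- the first coordinate of the derivative of a translation -/
lemma fderiv_mul_apply (F : Fam (Fin (m + 1)) s) (hF : IsCore F) (k : ℕ) (a y : Idx m k → ℂ)
    (v : Idx m k → ℂ) (i : Idx m k) :
    fderiv ℝ (fun z => a + z + hB F k a z) y v i =
      fderiv ℝ (fun z => a i + z i + hB F k a z i) y v := by
  have hd : Differentiable ℝ (fun z : Idx m k → ℂ => a + z + hB F k a z) := by
    have h1 : Differentiable ℝ (hB F k a) :=
      (((lawB F hF k).hol a).differentiable (by simp)).restrictScalars ℝ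
    exact ((differentiable_const a).add differentiable_id).add h1
  have h2 := fderiv_apply (hd y) i
  have h3 := congrArg (fun L : (Idx m k → ℂ) →L[ℝ] ℂ => L v) h2
  simpa using h3.symm

theorem main : S_GB := by
  intro m s F hF k
  refine ⟨{ lawB F hF k with
    cof := cofB F k
    smooth := ?_
    lin := ?_
    indep := ?_
    inv := ?_
    str := ?_ }⟩
  · rintro (i | ⟨j, b⟩)
    · have h1 : ContDiff ℝ ∞ fun y : Idx m k → ℂ => F.cof i (resR m k y) :=
        (F.smooth i).comp (resR m k).contDiff
      exact h1.clm_comp contDiff_const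
    · cases b with
      | false => exact contDiff_const
      | true =>
        rw [cofB_tt_eq]
        exact contDiff_const.add (tL j).contDiff
  · rintro (i | ⟨j, b⟩) y c v
    · rw [cofB_inl, cofB_inl]
      exact F.lin i _ c _
    · cases b with
      | false => rfl
      | true =>
        rw [cofB_tt, cofB_tt]
        simp only [Pi.smul_apply, smul_eq_mul]
        ring
  · intro y v h
    have h0 : resR m k v = 0 := F.indep (resR m k y) _ (fun i => h (Sum.inl i))
    have hx : ∀ i, v (Sum.inl i) = 0 := fun i => congrFun h0 i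
    have hk : ∀ j, v (Sum.inr (j, false)) = 0 := fun j => h (Sum.inr (j, false))
    funext i
    rcases i with i | ⟨j, b⟩
    · exact hx i
    · cases b with
      | false => exact hk j
      | true =>
        have := h (Sum.inr (j, true))
        rw [cofB_tt, hx, hk] at this
        simpa using this
  · intro i a ha y
    change (cofB F k i (a + y + hB F k a y)).comp
      (fderiv ℝ (fun z => a + z + hB F k a z) y) = cofB F k i y
    have hx : ∀ v : Idx m k → ℂ,
        fderiv ℝ (fun z => a + z + hB F k a z) y v (Sum.inl 0) = v (Sum.inl 0) := by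
      intro v
      rw [fderiv_mul_apply F hF]
      have e : (fun z : Idx m k → ℂ => a (Sum.inl 0) + z (Sum.inl 0) +
          hB F k a z (Sum.inl 0)) = fun z => a (Sum.inl 0) + pj (Sum.inl 0) z := by
        funext z
        rw [hB_inl, hF.2.1]
        simp
      rw [e]
      have h : HasFDerivAt (fun z : Idx m k → ℂ => a (Sum.inl 0) +
        (pj (Sum.inl 0) : Covi (Idx m k)) z) (pj (Sum.inl 0)) y :=
        ((pj (Sum.inl 0) : Covi (Idx m k)).hasFDerivAt).const_add _
      rw [h.fderiv]
      rfl
    have hk : ∀ (j : Fin k) (v : Idx m k → ℂ),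
        fderiv ℝ (fun z => a + z + hB F k a z) y v (Sum.inr (j, false)) =
          v (Sum.inr (j, false)) := by
      intro j v
      rw [fderiv_mul_apply F hF]
      have e : (fun z : Idx m k → ℂ => a (Sum.inr (j, false)) + z (Sum.inr (j, false)) +
          hB F k a z (Sum.inr (j, false))) =
          fun z => a (Sum.inr (j, false)) + pj (Sum.inr (j, false)) z := by
        funext z
        rw [hB_ff]
        simp
      rw [e]
      have h : HasFDerivAt (fun z : Idx m k → ℂ => a (Sum.inr (j, false)) +
        (pj (Sum.inr (j, false)) : Covi (Idx m k)) z) (pj (Sum.inr (j, false))) y :=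
        ((pj (Sum.inr (j, false)) : Covi (Idx m k)).hasFDerivAt).const_add _
      rw [h.fderiv]
      rfl
    ext v
    rw [ContinuousLinearMap.comp_apply]
    rcases i with i | ⟨j, b⟩
    · rw [cofB_inl, cofB_inl, res_mul]
      have hinv := F.inv i (resR m k a) (fun q => ha (Sum.inl q)) (resR m k y)
      have h1 := congrArg (fun L : Covi (Fin (m + 1)) => L (resR m k v)) hinv
      simp only [ContinuousLinearMap.comp_apply] at h1
      rw [← h1]
      congr 1
      -- the derivative commutes with the restriction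
      have hdF : Differentiable ℝ
          (fun z : Fin (m + 1) → ℂ => resR m k a + z + F.h (resR m k a) z) := by
        have h2 : Differentiable ℝ (F.h (resR m k a)) :=
          ((F.hol (resR m k a)).differentiable (by simp)).restrictScalars ℝ
        exact ((differentiable_const _).add differentiable_id).add h2
      have hdB : Differentiable ℝ (fun z : Idx m k → ℂ => a + z + hB F k a z) := by
        have h2 : Differentiable ℝ (hB F k a) :=
          (((lawB F hF k).hol a).differentiable (by simp)).restrictScalars ℝ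
        exact ((differentiable_const a).add differentiable_id).add h2
      have c1 : HasFDerivAt (fun z : Idx m k → ℂ => resR m k (a + z + hB F k a z))
          ((resR m k).comp (fderiv ℝ (fun z => a + z + hB F k a z) y)) y :=
        (resR m k).hasFDerivAt.comp y (hdB y).hasFDerivAt
      have c2 : HasFDerivAt (fun z : Idx m k → ℂ =>
          resR m k a + resR m k z + F.h (resR m k a) (resR m k z))
          ((fderiv ℝ (fun z => resR m k a + z + F.h (resR m k a) z) (resR m k y)).comp
            (resR m k)) y :=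
        HasFDerivAt.comp y (g := fun z => resR m k a + z + F.h (resR m k a) z)
          (hdF (resR m k y)).hasFDerivAt (resR m k).hasFDerivAt
      have e : (fun z : Idx m k → ℂ => resR m k (a + z + hB F k a z)) = fun z =>
          resR m k a + resR m k z + F.h (resR m k a) (resR m k z) := by
        funext z
        exact res_mul F k a z
      rw [e] at c1
      have h3 := c1.unique c2
      exact congrArg (fun L : (Idx m k → ℂ) →L[ℝ] (Fin (m + 1) → ℂ) => L v) h3
    · cases b with
      | false => rw [cofB_ff, cofB_ff, hk]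
      | true =>
        have ht : fderiv ℝ (fun z => a + z + hB F k a z) y v (Sum.inr (j, true)) =
            v (Sum.inr (j, true)) +
            (-(ll j * (a (Sum.inl 0) + starRingEnd ℂ (a (Sum.inl 0)))) * v (Sum.inr (j, false)) +
            (ll j ^ 2 + 1) * starRingEnd ℂ (a (Sum.inr (j, false))) * v (Sum.inl 0)) := by
          rw [fderiv_mul_apply F hF]
          set A : ℂ := -(ll j * (a (Sum.inl 0) + starRingEnd ℂ (a (Sum.inl 0)))) with hA
          set B : ℂ := (ll j ^ 2 + 1) * starRingEnd ℂ (a (Sum.inr (j, false))) with hB'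
          have e : (fun z : Idx m k → ℂ => a (Sum.inr (j, true)) + z (Sum.inr (j, true)) +
              hB F k a z (Sum.inr (j, true))) =
              fun z => a (Sum.inr (j, true)) + (pj (Sum.inr (j, true)) +
                (A • pj (Sum.inr (j, false)) + B • pj (Sum.inl 0)) : Covi (Idx m k)) z := by
            funext z
            rw [hB_tt]
            show _ = a (Sum.inr (j, true)) + (z (Sum.inr (j, true)) +
              (A * z (Sum.inr (j, false)) + B * z (Sum.inl 0)))
            rw [hA, hB']
            ring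
          rw [e]
          have h : HasFDerivAt (fun z : Idx m k → ℂ => a (Sum.inr (j, true)) +
              (pj (Sum.inr (j, true)) +
                (A • pj (Sum.inr (j, false)) + B • pj (Sum.inl 0)) : Covi (Idx m k)) z)
              (pj (Sum.inr (j, true)) +
                (A • pj (Sum.inr (j, false)) + B • pj (Sum.inl 0)) : Covi (Idx m k)) y :=
            ((pj (Sum.inr (j, true)) +
                (A • pj (Sum.inr (j, false)) + B • pj (Sum.inl 0)) :
                  Covi (Idx m k)).hasFDerivAt).const_add _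
          rw [h.fderiv]
          rfl
        rw [cofB_tt, cofB_tt, ht, hk, hx]
        have e0 : hB F k a y (Sum.inl 0) = 0 := hF.2.1 _ _
        simp only [Pi.add_apply, e0, hB_ff, map_add, add_zero]
        ring
  · intro i y u v
    change fderiv ℝ (cofB F k i) y u v - fderiv ℝ (cofB F k i) y v u =
      ((blk s k i).map fun t => (t.1 : ℂ) * (cof' (cofB F k) t.2.1 y u *
        cof' (cofB F k) t.2.2 y v - cof' (cofB F k) t.2.1 y v * cof' (cofB F k) t.2.2 y u)).sum
    rcases i with i | ⟨j, b⟩
    · have hd : ∀ w : Idx m k → ℂ, ∀ w', fderiv ℝ (cofB F k (Sum.inl i)) y w w' =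
          fderiv ℝ (F.cof i) (resR m k y) (resR m k w) (resR m k w') := by
        intro w w'
        have hs : HasFDerivAt (F.cof i) (fderiv ℝ (F.cof i) (resR m k y)) (resR m k y) :=
          (((F.smooth i).differentiable (by simp)) _).hasFDerivAt
        have c1 : HasFDerivAt (fun z : Idx m k → ℂ => F.cof i (resR m k z))
            ((fderiv ℝ (F.cof i) (resR m k y)).comp (resR m k)) y :=
          HasFDerivAt.comp y hs (resR m k).hasFDerivAt
        have c2 : HasFDerivAt (fun z : Idx m k → ℂ => (F.cof i (resR m k z)).comp (resR m k))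
            (((ContinuousLinearMap.compL ℝ (Idx m k → ℂ) (Fin (m + 1) → ℂ) ℂ).flip
              (resR m k)).comp ((fderiv ℝ (F.cof i) (resR m k y)).comp (resR m k))) y :=
          (((ContinuousLinearMap.compL ℝ (Idx m k → ℂ) (Fin (m + 1) → ℂ) ℂ).flip
              (resR m k)).hasFDerivAt).comp y c1
        have e : cofB F k (Sum.inl i) = fun z : Idx m k → ℂ =>
          (F.cof i (resR m k z)).comp (resR m k) := rfl
        rw [e, c2.fderiv]
        rfl
      rw [hd, hd, F.str]
      show _ = (((s i).map fun t => (t.1, Sum.map Sum.inl Sum.inl t.2.1,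
        Sum.map Sum.inl Sum.inl t.2.2)).map _).sum
      rw [List.map_map]
      congr 1
      apply List.map_congr_left
      intro t _
      simp only [Function.comp_apply, cof'_map]
    · cases b with
      | false =>
        have e : cofB F k (Sum.inr (j, false)) = fun _ => pj (Sum.inr (j, false)) := rfl
        rw [e, fderiv_fun_const]
        show (0 : ℂ) - 0 = (List.map _ []).sum
        simp
      | true =>
        rw [fderiv_tt, tL_apply, tL_apply]
        simp only [blk, List.map_cons, List.map_nil, List.sum_cons, List.sum_nil, add_zero]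
        have a1 : ∀ w : Idx m k → ℂ,
            cof' (cofB F k) (Sum.inl (Sum.inl 0)) y w = w (Sum.inl 0) := by
          intro w
          show F.cof 0 (resR m k y) (resR m k w) = _
          rw [hF.2.2]; rfl
        have a2 : ∀ w : Idx m k → ℂ,
            cof' (cofB F k) (Sum.inr (Sum.inl 0)) y w = starRingEnd ℂ (w (Sum.inl 0)) := by
          intro w
          show starRingEnd ℂ (F.cof 0 (resR m k y) (resR m k w)) = _
          rw [hF.2.2]; rfl
        have a3 : ∀ w : Idx m k → ℂ,
            cof' (cofB F k) (Sum.inl (Sum.inr (j, false))) y w = w (Sum.inr (j, false)) :=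
          fun w => rfl
        have a4 : ∀ w : Idx m k → ℂ, cof' (cofB F k) (Sum.inr (Sum.inr (j, false))) y w =
            starRingEnd ℂ (w (Sum.inr (j, false))) := fun w => rfl
        rw [a1, a1, a2, a2, a3, a3, a4, a4]
        unfold ll
        push_cast
        ring

end Pool.Agent.W168.FS.GB
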